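import Pool.Agent.Lib.MP_31bf45_nt.Clus

set_option autoImplicit false

namespace Pool.Agent.Lib.MP_31bf45_nt

open Complex Filter Topology Finset
open scoped Real ComplexConjugate

variable {η κ b : ℝ}

lemma factor1 {ι : Type} (S : Finset ι) (ρ : ι → ℂ) {f : ℂ → ℂ} (hf : Differentiable ℂ f) (hi : Set.InjOn ρ S)
    (h0 : ∀ i ∈ S, f (ρ i) = 0) : ∃ g : ℂ → ℂ, Differentiable ℂ g ∧ ∀ s, f s = (∏ i ∈ S, (s - ρ i)) * g s := by
  classical
  refine factor S ρ f hf fun z => ?_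
  rcases (S.filter fun i => ρ i = z).eq_empty_or_nonempty with c | ⟨i, c⟩
  · simp [c]
  · obtain ⟨c1, rfl⟩ := mem_filter.1 c
    refine le_trans (Nat.cast_le.2 (card_le_one.2 fun u hu v hv => hi (mem_filter.1 hu).1 (mem_filter.1 hv).1
      ((mem_filter.1 hu).2.trans (mem_filter.1 hv).2.symm))) ?_
    exact Order.one_le_iff_ne_zero.2 ((hf.analyticAt _).analyticOrderAt_ne_zero.2 (h0 i c1))

lemma sumA (η0 : 0 < η) (η1 : η ≤ 1) (κ0 : 0 < κ) (κ1 : κ ≤ 1) (hb : b = π / (2 * (1 / 2 + η))) : ∃ C : ℝ,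
    ∀ T : ℝ, ∃ σ : ℂ, (σ = 1 ∨ σ = -1) ∧ ∀ (S : Finset ℤ) (x : ℤ → ℝ), Set.InjOn x S → (∀ k ∈ S, 0 < x k ∧
      x k ≤ 1 / 2 + η / 2 ∧ xi (x k + T * I) + σ * conj (xi (x k + T * I)) = 0) →
      8 * b * S.card ≤ (1 + κ) ^ 2 * (C + Real.log (1 + T ^ 2)) := by
  obtain ⟨d, d0, d1, hd⟩ := par η0 η1 κ0 κ1 hb
  obtain ⟨C, C0, hC⟩ := bnd d0 d1 η1
  refine ⟨2 * Real.log (4 * Real.exp ((1 / 2 + η) ^ 2) ^ 2 * C) / d, fun T => ?_⟩
  obtain ⟨B, hB⟩ := damp T
  obtain ⟨n0, hC⟩ := hC T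
  set w := xi ((1 / 2 + η - d : ℝ) + T * I) with hw
  obtain ⟨σ, hσ, hσ'⟩ : ∃ σ : ℂ, (σ = 1 ∨ σ = -1) ∧ ‖w‖ ≤ ‖w + σ * conj w‖ := by
    have := norm_le_abs_re_add_abs_im w
    rcases le_total |w.im| |w.re| with c | c
    · exact ⟨1, Or.inl rfl, by rw [one_mul, add_conj]; simp; linarith⟩
    · exact ⟨-1, Or.inr rfl, by rw [neg_one_mul, ← sub_eq_add_neg, sub_conj]; simp; linarith⟩
  refine ⟨σ, hσ, fun S x hx hS => ?_⟩
  have cj : ∀ y : ℝ, xi (y - T * I) = conj (xi (y + T * I)) := fun y => by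
    rw [← xi_conj]; simp [sub_eq_add_neg]
  obtain ⟨g, g1, g2⟩ := factor1 (S.disjSum S) (Sum.elim (fun k => (x k : ℂ)) fun k => -x k)
    (f := fun z => xi (z + T * I) + σ * xi (z - T * I)) (by fun_prop) (by
      rintro (i | i) hi (j | j) hj e <;> simp only [Sum.elim_inl, Sum.elim_inr, mem_coe, inl_mem_disjSum,
        inr_mem_disjSum, neg_inj, ← ofReal_neg, ofReal_inj] at hi hj e
      · rw [hx hi hj e]
      · linarith [(hS i hi).1, (hS j hj).1]
      · linarith [(hS i hi).1, (hS j hj).1]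
      · rw [hx hi hj e]) (by
      rintro (i | i) hi <;> simp only [Sum.elim_inl, Sum.elim_inr, inl_mem_disjSum, inr_mem_disjSum] at hi ⊢
      · rw [cj]; exact (hS i hi).2.2
      · rw [← xi_neg, ← xi_neg (_ - _), show -(-(x i : ℂ) + T * I) = x i - T * I by ring,
          show -(-(x i : ℂ) - T * I) = x i + T * I by ring, cj]
        rcases hσ with rfl | rfl
        · linear_combination (hS i hi).2.2
        · linear_combination -(hS i hi).2.2)
  have key : ∀ (r Y : ℝ) (z : ℂ), |z.re| ≤ r → (∀ u : ℂ, |u.re| = |z.re| → ‖xi u‖ * Real.exp (-(u.im - T) ^ 2) ≤ Y) →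
      ‖(xi (z + T * I) + σ * xi (z - T * I)) * exp ((z - (0 : ℝ) * I) ^ 2)‖ ≤ Real.exp (r ^ 2) * (Y + Y) :=
    fun r Y z hz h => by
      have h1 := h (z + T * I) (by simp)
      have h2 := h (-(z - T * I)) (by simp [abs_neg])
      rw [xi_neg, show (-(z - T * I)).im - T = -(z.im - 0) by simp, neg_sq] at h2
      rw [show (z + T * I).im - T = z.im - 0 by simp] at h1
      rw [norm_mul, norm_gau, mul_left_comm]
      refine mul_le_mul (Real.exp_le_exp.2 (sq_le_sq' (abs_le.1 hz).1 (abs_le.1 hz).2)) (le_trans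
        (mul_le_mul_of_nonneg_right (norm_add_le _ _) (Real.exp_pos _).le) ?_) (by positivity) (by positivity)
      rw [norm_mul, show ‖σ‖ = 1 by rcases hσ with rfl | rfl <;> simp]
      linarith
  have := jen S (fun k => (x k : ℂ)) (by positivity) hb d0 (by linarith) (fun i hi => by
      rw [ofReal_re, abs_of_pos (hS i hi).1]; linarith [(hS i hi).2.1])
    (f := fun z => (xi (z + T * I) + σ * xi (z - T * I)) * exp ((z - (0 : ℝ) * I) ^ 2))
    (g := fun z => g z * exp ((z - (0 : ℝ) * I) ^ 2)) (by fun_prop) (fun z => by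
      rw [g2, prod_disjSum, prod_mul_distrib, mul_assoc]; simp)
    (fun z hz => key (3 / 2) B z (by linarith) fun u hu => hB u (by linarith))
    (fun z hz => key _ _ z hz.le fun u hu => Real.le_sqrt_of_sq_le (hC u (hu.trans hz))) 0
  have n1 := norm_pos_iff.2 n0
  have := fin_log (X := ‖w‖ ^ 2) (k := 1 / 2) (d := d) (τ := T)
    (C := 4 * Real.exp ((1 / 2 + η) ^ 2) ^ 2 * C) (by positivity) (by positivity) (le_trans
      (mul_le_mul_of_nonneg_right (by
        rw [norm_mul, norm_gau, ofReal_zero, zero_mul, add_zero, cj]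
        refine pow_le_pow_left₀ n1.le (hσ'.trans (le_mul_of_one_le_right (norm_nonneg _) ?_)) 2
        simp [sq_nonneg]) (Real.exp_pos _).le) this) (by
      rw [← two_mul, mul_pow, mul_pow, Real.sq_sqrt (by positivity), mul_one_div]; ring)
  have b0 : 0 < b := by rw [hb]; have := Real.pi_pos; positivity
  have := card_nsmul_le_sum S _ (4 * (b * d)) (fun i hi => show _ ≤ (1 + κ) ^ 2 * (4 * Real.sin (b * d) *
      KK (Real.cos (b * (x i : ℂ).re)) (b * d) (b * (0 - (x i : ℂ).im))) by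
    have h1 : |x i| ≤ 1 / 2 + η / 2 := by rw [abs_of_pos (hS i hi).1]; exact (hS i hi).2.1
    have h2 := cos_pos' η0 hb h1
    have h3 := h2.1.trans_le h2.2
    have : 1 ≤ KK (Real.cos (b * x i)) 0 0 := by
      simp only [KK, Real.sinh_zero, Real.cosh_zero, Real.sin_zero]
      rw [one_le_div (by positivity)]; nlinarith [Real.cos_le_one (b * x i)]
    rw [ofReal_re, ofReal_im, sub_zero, mul_zero]
    nlinarith [hd (x i) 0 h1, mul_pos b0 d0]) |>.trans
    ((mul_sum _ _ _).ge.trans (mul_le_mul_of_nonneg_left this (sq_nonneg _)))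
  refine le_of_mul_le_mul_left ?_ d0
  rw [mul_left_comm d (_ ^ 2), mul_add d, mul_div_cancel₀ _ d0.ne']
  rw [nsmul_eq_mul] at this
  linarith

lemma lift {u v : ℝ → ℝ} {p q : ℝ} (pq : p ≤ q) (hu : ContinuousOn u (Set.Icc p q)) (hv : ContinuousOn v (Set.Icc p q))
    (h : ∀ x ∈ Set.Icc p q, exp (u x * I) = exp (v x * I)) : u q - v q = u p - v p := by
  have := Circle.isCoveringMap_exp.eqOn_of_comp_eqOn isPreconnected_Icc hu (hv.add (continuousOn_const
    (c := u p - v p))) (fun x hx => Circle.ext (by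
      simp only [Function.comp, Pi.add_apply, Circle.coe_exp, ofReal_add, ofReal_sub, add_mul, sub_mul, exp_add,
        exp_sub, h x hx, h p ⟨le_rfl, pq⟩, div_self (exp_ne_zero _), mul_one])) (a := p) ⟨le_rfl, pq⟩ (by simp)
    (show q ∈ _ from ⟨pq, le_rfl⟩)
  simp only [Pi.add_apply] at this; linarith

lemma ivt {B : ℝ → ℝ} {p q : ℝ} (pq : p ≤ q) (hB : ContinuousOn B (Set.Icc p q)) (φ : ℝ) :
    ∃ (S : Finset ℤ) (x : ℤ → ℝ), Set.InjOn x S ∧ (∀ k ∈ S, p < x k ∧ x k ≤ q ∧ B (x k) = φ + k * π) ∧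
      |B q - B p| ≤ (S.card + 1) * π := by
  have pi0 := Real.pi_pos
  let S := Ioo ⌊(min (B p) (B q) - φ) / π⌋ ⌈(max (B p) (B q) - φ) / π⌉
  have : ∀ k ∈ S, ∃ x, p < x ∧ x ≤ q ∧ B x = φ + k * π := fun k hk => by
    obtain ⟨h1, h2⟩ := mem_Ioo.1 hk
    rw [Int.floor_lt, div_lt_iff₀ pi0] at h1
    rw [Int.lt_ceil, lt_div_iff₀ pi0] at h2
    obtain ⟨x, h3, h4⟩ := intermediate_value_uIcc (f := B) (a := p) (b := q) (by rwa [Set.uIcc_of_le pq])
      (show φ + k * π ∈ _ from ⟨by linarith, by linarith⟩)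
    rw [Set.uIcc_of_le pq] at h3
    refine ⟨x, h3.1.lt_of_ne ?_, h3.2, h4⟩
    rintro rfl
    rcases le_total (B p) (B q) with c | c
    · rw [min_eq_left c] at h1; linarith
    · rw [max_eq_left c] at h2; linarith
  choose! x hx using this
  refine ⟨S, x, fun i hi j hj e => ?_, hx, ?_⟩
  · have := (hx i hi).2.2.symm.trans (e ▸ (hx j hj).2.2)
    simpa [pi0.ne'] using this
  · have h1 := Int.floor_le ((min (B p) (B q) - φ) / π)
    have h2 := Int.le_ceil ((max (B p) (B q) - φ) / π)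
    have h3 : ((⌈(max (B p) (B q) - φ) / π⌉ - ⌊(min (B p) (B q) - φ) / π⌋ - 1 : ℤ) : ℝ) ≤ (S.card : ℤ) := by
      rw [Int.card_Ioo]; exact_mod_cast Int.self_le_toNat _
    rw [le_div_iff₀ pi0] at h1
    rw [div_le_iff₀ pi0] at h2
    rw [← max_sub_min_eq_abs]
    push_cast at h3; nlinarith

lemma ph {s : ℂ} (hs : 1 < s.re) {θ : ℝ} (h : riemannZeta s = ‖riemannZeta s‖ * exp (θ * I)) :
    exp (θ * I) = exp ((Lz s).im * I) := by
  rw [← riemannZeta_eulerProduct_exp_log hs, ← Lz, norm_exp, ofReal_exp] at h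
  conv_lhs at h => rw [← re_add_im (Lz s), exp_add]
  exact (mul_left_cancel₀ (exp_ne_zero _) h).symm

theorem argb {ε : ℝ} (hε : 0 < ε) : ∀ᶠ T : ℝ in atTop, ∀ u v : ℝ → ℝ, ContinuousOn u (Set.Icc 0 T) →
    ContinuousOn v (Set.Icc (1 / 2) 2) → u 0 = 0 → v 2 = u T →
    (∀ t ∈ Set.Icc 0 T, riemannZeta (2 + t * I) = ‖riemannZeta (2 + t * I)‖ * exp (u t * I)) →
    (∀ x ∈ Set.Icc (1 / 2 : ℝ) 2, riemannZeta (x + T * I) = ‖riemannZeta (x + T * I)‖ * exp (v x * I)) →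
    |v (1 / 2) / π| ≤ (1 + ε) * Real.log T / (4 * π) := by
  obtain ⟨κ, κ0, κ1, hκ⟩ := kap hε
  have pi0 := Real.pi_pos
  obtain ⟨C, hC⟩ := sumA (η := κ / 2) (by positivity) (by linarith) κ0 κ1 rfl
  obtain ⟨lc, L, hL⟩ := Lz_bd (e := κ / 4) (by positivity)
  have L0 : 0 ≤ L := (norm_nonneg _).trans (hL 2 (by simp; linarith))
  filter_upwards [log_ev (C + 8 * (2 * L + 5 * π)) κ0] with T ⟨T1, hT⟩ u v hu hv u0 v2 h1 h2
  obtain ⟨σ, hσ, hC⟩ := hC T
  have li : ∀ s : ℂ, 1 + κ / 4 ≤ s.re → |(Lz s).im| ≤ L := fun s hs => (abs_im_le_norm _).trans (hL s hs)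
  have a1 := lift (by linarith) hu (v := fun t => (Lz (2 + t * I)).im) (continuous_im.comp_continuousOn
    (lc.comp (by fun_prop) fun t _ => by simp; linarith)) fun t ht => ph (by simp) (h1 t ht)
  have a2 := lift (p := 1 + κ / 4) (by linarith) (hv.mono (Set.Icc_subset_Icc_left (by linarith)))
    (v := fun x => (Lz (x + T * I)).im) (continuous_im.comp_continuousOn
    (lc.comp (by fun_prop) fun t ht => by simpa using ht.1)) fun x hx =>
      ph (by simp; linarith [hx.1]) (h2 x ⟨by linarith [hx.1], hx.2⟩)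
  have a3 := abs_le.1 (li ((1 + κ / 4 : ℝ) + T * I) (by simp))
  have a4 := abs_le.1 (li (2 + (0 : ℝ) * I) (by simp; linarith))
  simp only [ofReal_ofNat] at a1 a2
  let G : ℝ → ℂ := fun x => Gamma ((5 / 4 + (x / 2 - 1 / 4) : ℝ) + (T / 2 : ℝ) * I) / Gamma ((5 / 4 : ℝ) + (T / 2 : ℝ) * I)
  let W : ℂ := 2 * π ^ (-(T * I) / 2 : ℂ) * Gamma ((5 / 4 : ℝ) + (T / 2 : ℝ) * I)
  have g0 : ∀ y : ℝ, 0 < y → Gamma (y + (T / 2 : ℝ) * I) ≠ 0 := fun y hy => Gamma_ne_zero_of_re_pos (by simpa)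
  have hI : Set.Icc (1 / 2) (1 + κ / 4) ⊆ Set.Icc (1 / 2) 2 := Set.Icc_subset_Icc_right (by linarith)
  obtain ⟨S, x, x1, x2, x3⟩ := ivt (p := 1 / 2) (q := 1 + κ / 4) (by linarith)
    (B := fun x => v x + arg (x + T * I - 1) + arg (G x) + arg W) ((((hv.mono hI).add fun x hx =>
      (continuousAt_arg (Or.inr (by simp; linarith))).comp_continuousWithinAt (f := fun x : ℝ => (x + T * I - 1 : ℂ))
        (by fun_prop)).add fun x hx => ContinuousAt.comp_continuousWithinAt (f := G) (continuousAt_arg (by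
          have := gam_arg (x := 5 / 4) (δ := x / 2 - 1 / 4) (y := T / 2) (by norm_num) (by linarith [hx.1])
            (by linarith [hx.2]) (by linarith)
          by_contra c
          rw [mem_slitPlane_iff, not_or, not_not, not_lt] at c
          exact div_ne_zero (g0 _ (by linarith [hx.1])) (g0 _ (by norm_num))
            (Complex.ext (le_antisymm c.1 this) c.2))) (ContinuousAt.continuousWithinAt (ContinuousAt.div_const
          (ContinuousAt.comp (g := Gamma) (differentiableAt_Gamma _ fun k c => by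
            have := congrArg im c
            simp at this; linarith).continuousAt (by fun_prop)) _))).add continuousOn_const)
    (if σ = 1 then π / 2 else 0)
  have a5 := hC S (fun k => x k - 1 / 2) (fun i hi j hj e => x1 hi hj (sub_left_injective e)) fun k hk => by
    obtain ⟨k1, k2, k3⟩ := x2 k hk
    refine ⟨by linarith, by linarith, ?_⟩
    have e : xi ((x k - 1 / 2 : ℝ) + T * I) = (‖riemannZeta (x k + T * I)‖ * ‖(x k + T * I - 1 : ℂ)‖ * ‖G (x k)‖ * ‖W‖ *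
        π ^ (-x k / 2) : ℝ) * exp (((if σ = 1 then π / 2 else 0) + k * π : ℝ) * I) := by
      rw [show ((x k - 1 / 2 : ℝ) + T * I : ℂ) = x k + T * I - 1 / 2 by push_cast; ring,
        xi_eq (Or.inr (by simp; linarith)), ← k3, h2 _ (hI ⟨k1.le, k2⟩), QQ,
        show -(x k + T * I : ℂ) / 2 = (-x k / 2 : ℝ) + -(T * I) / 2 by push_cast; ring, cpow_add _ _ (by simp [pi0.ne']),
        ← ofReal_cpow pi0.le, show (x k + T * I : ℂ) / 2 + 1 = (5 / 4 + (x k / 2 - 1 / 4) : ℝ) + (T / 2 : ℝ) * I by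
          push_cast; ring, ← div_mul_cancel₀ (Gamma _) (g0 (5 / 4) (by norm_num))]
      simp only [ofReal_add (_ + _), ofReal_add (v _), add_mul, exp_add, ofReal_mul, norm_mul, norm_real, norm_norm,
        norm_exp_ofReal_mul_I, mul_one]
      have e1 := norm_mul_exp_arg_mul_I (x k + T * I - 1)
      have e2 := norm_mul_exp_arg_mul_I (G (x k))
      have e3 := norm_mul_exp_arg_mul_I W
      calc _ = ‖riemannZeta (x k + T * I)‖ * exp (v (x k) * I) * (x k + T * I - 1) * G (x k) * W *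
            (π ^ (-x k / 2) : ℝ) := by simp only [G, W]; ring
        _ = _ := by conv_lhs => rw [← e1, ← e2, ← e3]
                    ring
    rw [e, map_mul, conj_ofReal, mul_left_comm, ← mul_add]
    refine mul_eq_zero_of_right _ ?_
    rcases hσ with rfl | rfl
    · rw [one_mul, add_conj, exp_ofReal_mul_I_re, if_pos rfl, Real.cos_add_int_mul_pi]; simp
    · rw [neg_one_mul, ← sub_eq_add_neg, sub_conj, exp_ofReal_mul_I_im, if_neg (by norm_num)]; simp
  have a6 := hT T (by linarith) (by linarith)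
  have a7 := abs_le.1 x3
  have ar : ∀ z : ℂ, -π ≤ arg z ∧ arg z ≤ π := fun z => abs_le.1 (abs_arg_le_pi z)
  have a8 : |v (1 / 2)| ≤ S.card * π + (2 * L + 5 * π) := by
    rw [abs_le]
    constructor <;> linarith [ar (G (1 / 2)), ar (G (1 + κ / 4)), ar ((1 / 2 : ℝ) + T * I - 1),
      ar ((1 + κ / 4 : ℝ) + T * I - 1)]
  have l0 := Real.log_nonneg T1
  have k3 : 1 ≤ (1 + κ) ^ 3 := one_le_pow₀ (by linarith)
  rw [show 8 * (π / (2 * (1 / 2 + κ / 2))) * S.card = 8 * (S.card * π) / (1 + κ) by field_simp,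
    div_le_iff₀ (by positivity)] at a5
  rw [abs_div, abs_of_pos pi0, mul_comm 4, ← div_div, div_right_comm]
  gcongr
  calc _ ≤ (1 + κ) ^ 3 * (C + 8 * (2 * L + 5 * π) + Real.log (1 + T ^ 2)) / 8 := by
        nlinarith [mul_le_mul_of_nonneg_right k3 (show 0 ≤ 2 * L + 5 * π by positivity)]
    _ ≤ (1 + κ) ^ 3 * ((1 + κ) * (2 * Real.log T)) / 8 := by gcongr
    _ = (1 + κ) ^ 4 * Real.log T / 4 := by ring
    _ ≤ _ := by gcongr

end Pool.Agent.Lib.MP_31bf45_nt
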