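import Pool.Agent.Lib.MP_31bf45_nt.Xi

set_option autoImplicit false

namespace Pool.Agent.Lib.MP_31bf45_nt

open Complex Filter Topology Finset
open scoped Real ComplexConjugate

variable {η κ b : ℝ}

lemma cos_pos' (η0 : 0 < η) (hb : b = π / (2 * (1 / 2 + η))) {β : ℝ} (h : |β| ≤ 1 / 2 + η / 2) :
    0 < Real.cos (b * (1 / 2 + η / 2)) ∧ Real.cos (b * (1 / 2 + η / 2)) ≤ Real.cos (b * β) := by
  have pi0 := Real.pi_pos
  have b0 : 0 < b := by rw [hb]; positivity
  have br : b * (1 / 2 + η) = π / 2 := by rw [hb]; field_simp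
  have : 0 < b * η := by positivity
  refine ⟨Real.cos_pos_of_mem_Ioo ⟨by linarith, by linarith⟩, ?_⟩
  rw [← Real.cos_abs (b * β), abs_mul, abs_of_pos b0]
  exact Real.cos_le_cos_of_nonneg_of_le_pi (by positivity) (by linarith) (by gcongr)

lemma par (η0 : 0 < η) (η1 : η ≤ 1) (κ0 : 0 < κ) (κ1 : κ ≤ 1) (hb : b = π / (2 * (1 / 2 + η))) : ∃ d, 0 < d ∧ d < η ∧
    ∀ β v : ℝ, |β| ≤ 1 / 2 + η / 2 → b * d * KK (Real.cos (b * β)) 0 v ≤
      (1 + κ) ^ 2 * (Real.sin (b * d) * KK (Real.cos (b * β)) (b * d) v) := by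
  have pi0 := Real.pi_pos
  have b0 : 0 < b := by rw [hb]; positivity
  have c0 := (cos_pos' η0 hb (β := 0) (by simp; positivity)).1
  obtain ⟨d, d0, d1, d2⟩ : ∃ d, 0 < d ∧ d ≤ η / 2 ∧ d ≤ κ * Real.cos (b * (1 / 2 + η / 2)) / b :=
    ⟨min _ _, lt_min (by positivity) (by positivity), min_le_left _ _, min_le_right _ _⟩
  refine ⟨d, d0, by linarith, fun β v h => ?_⟩
  have c1 := (cos_pos' η0 hb h).2
  have c2 := Real.cos_le_one (b * β)
  rw [le_div_iff₀' b0] at d2
  have q0 : 0 < b * d := by positivity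
  generalize b * d = q at *
  generalize Real.cos (b * β) = c at *
  have q1 : q ≤ κ * c := d2.trans (by gcongr)
  have c3 : 0 < c := by linarith
  have q2 : q ≤ κ := by nlinarith
  have s1 := Real.sin_gt_sub_cube q0
  have s2 := Real.sin_le q0.le
  have s3 : q ≤ (1 + κ) * Real.sin q := by
    have : q ^ 3 ≤ q * κ := by nlinarith [mul_le_mul q2 (q2.trans κ1) q0.le κ0.le]
    nlinarith [mul_pos q0 κ0]
  have s0 : 0 < Real.sin q := by nlinarith
  have := Real.cosh_pos v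
  have : KK c 0 v ≤ (1 + κ) * KK c q v := by
    rw [KK, KK, Real.sin_zero, ← mul_div_assoc, div_le_div_iff₀ (by positivity) (by positivity), mul_comm (1 + κ),
      mul_assoc (c * _)]
    gcongr
    nlinarith [mul_le_mul (s2.trans q1) (s2.trans q1) s0.le (by positivity), sq_nonneg (Real.sinh v),
      mul_le_mul_of_nonneg_right κ1 (show 0 ≤ κ * c ^ 2 by positivity)]
  calc _ ≤ (1 + κ) * Real.sin q * ((1 + κ) * KK c q v) := by gcongr; unfold KK; positivity
    _ = _ := by ring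

lemma damp (τ : ℝ) : ∃ B, ∀ z : ℂ, |z.re| ≤ 3 / 2 → ‖xi z‖ * Real.exp (-(z.im - τ) ^ 2) ≤ B := by
  obtain ⟨B, h⟩ := xi_bdd
  refine ⟨|B| * (2 * (1 + τ ^ 2)), fun z hz => ?_⟩
  rw [Real.exp_neg, ← div_eq_mul_inv, div_le_iff₀ (Real.exp_pos _), mul_assoc]
  refine (h z hz).trans (mul_le_mul (le_abs_self _) (le_trans ?_ (mul_le_mul_of_nonneg_left
    (Real.add_one_le_exp _) (by positivity))) (by positivity) (abs_nonneg _))
  nlinarith [sq_nonneg (z.im - 2 * τ), mul_nonneg (sq_nonneg τ) (sq_nonneg (z.im - τ))]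

lemma norm_gau (z : ℂ) (τ : ℝ) : ‖exp ((z - τ * I) ^ 2)‖ = Real.exp (z.re ^ 2) * Real.exp (-(z.im - τ) ^ 2) := by
  rw [norm_exp, ← Real.exp_add]; congr 1; simp [sq]; ring

lemma fin_log {X Y A C τ d k : ℝ} (X0 : 0 < X) (C0 : 0 < C) (h : X * Real.exp Y ≤ A)
    (hA : A = C * (1 + τ ^ 2) ^ (d * k) * X) : Y ≤ Real.log C + d * (k * Real.log (1 + τ ^ 2)) := by
  rw [hA, mul_comm X, mul_le_mul_iff_left₀ X0, ← Real.le_log_iff_exp_le (by positivity),
    Real.log_mul C0.ne' (by positivity), Real.log_rpow (by positivity)] at h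
  linarith

lemma sumK (η0 : 0 < η) (η1 : η ≤ 1) (κ0 : 0 < κ) (κ1 : κ ≤ 1) (hb : b = π / (2 * (1 / 2 + η))) : ∃ C : ℝ,
    ∀ (τ : ℝ) (ι : Type) (S : Finset ι) (ρ : ι → ℂ) (g : ℂ → ℂ), Differentiable ℂ g → (∀ i ∈ S, |(ρ i).re| ≤ 1 / 2) →
      (∀ z, xi z = (∏ i ∈ S, (z - ρ i)) * g z) → 4 * b * ∑ i ∈ S, KK (Real.cos (b * (ρ i).re)) 0 (b * (τ - (ρ i).im)) ≤
        (1 + κ) ^ 2 * (C + Real.log (1 + τ ^ 2)) := by
  obtain ⟨d, d0, d1, hd⟩ := par η0 η1 κ0 κ1 hb
  obtain ⟨C, C0, hC⟩ := bnd d0 d1 η1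
  refine ⟨Real.log ((Real.exp ((1 / 2 + η) ^ 2) ^ 2 * C) ^ 2) / d, fun τ ι S ρ g hg hρ h => ?_⟩
  obtain ⟨B, hB⟩ := damp τ
  obtain ⟨n0, hC⟩ := hC τ
  have g2 : Differentiable ℂ fun z => conj (g (-conj z)) := fun z =>
    differentiableAt_conj_conj_iff (f := fun z => g (-z)).mpr (by fun_prop)
  have := jen S ρ (by positivity) hb d0 (by linarith) (fun i hi => by linarith [hρ i hi])
    (f := fun z => (xi z * exp ((z - τ * I) ^ 2)) ^ 2)
    (g := fun z => (-1) ^ S.card * conj (g (-conj z)) * g z * exp ((z - τ * I) ^ 2) ^ 2)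
    (B := (Real.exp ((3 / 2) ^ 2) * B) ^ 2) (A := Real.exp ((1 / 2 + η) ^ 2) ^ 2 * (C * (1 + τ ^ 2) ^ (d / 2) *
      ‖xi ((1 / 2 + η - d : ℝ) + τ * I)‖ ^ 2)) (by fun_prop) (fun z => by
      have e : xi z = (∏ i ∈ S, (z + conj (ρ i))) * ((-1) ^ S.card * conj (g (-conj z))) := by
        rw [← conj_conj (xi z), ← xi_conj, ← xi_neg, h, map_mul, map_prod, ← prod_const, ← mul_assoc,
          ← prod_mul_distrib]
        congr 1; exact prod_congr rfl fun i _ => by simp; ring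
      rw [mul_pow, sq (xi z), prod_mul_distrib]
      nth_rw 1 [e]
      rw [h z]; ring) (fun z hz => by
      rw [norm_pow, norm_mul, norm_gau, mul_left_comm]
      have z1 : |z.re| ≤ 3 / 2 := by linarith
      exact pow_le_pow_left₀ (by positivity) (mul_le_mul (Real.exp_le_exp.2 (sq_le_sq' (abs_le.1 z1).1
        (abs_le.1 z1).2)) (hB z z1) (by positivity) (by positivity)) 2) (fun z hz => by
      rw [norm_pow, norm_mul, norm_gau, mul_left_comm, mul_pow, ← sq_abs z.re, hz]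
      exact mul_le_mul_of_nonneg_left (hC z hz) (by positivity)) τ
  have n1 := norm_pos_iff.2 n0
  have := fin_log (X := ‖xi ((1 / 2 + η - d : ℝ) + τ * I)‖ ^ 4) (k := 1) (d := d) (τ := τ)
    (C := (Real.exp ((1 / 2 + η) ^ 2) ^ 2 * C) ^ 2) (by positivity) (by positivity) (le_trans
      (mul_le_mul_of_nonneg_right (by
        rw [norm_pow, ← pow_mul, norm_mul, norm_gau]
        refine pow_le_pow_left₀ n1.le ?_ 4
        refine le_mul_of_one_le_right n1.le ?_
        simp [sq_nonneg]) (Real.exp_pos _).le) this) (by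
      rw [mul_one, ← add_halves d, Real.rpow_add (by positivity), add_halves]; ring)
  refine le_of_mul_le_mul_left ?_ d0
  calc _ = ∑ i ∈ S, 4 * (b * d * KK (Real.cos (b * (ρ i).re)) 0 (b * (τ - (ρ i).im))) := by
        rw [← mul_assoc, mul_sum]; exact sum_congr rfl fun _ _ => by ring
    _ ≤ ∑ i ∈ S, (1 + κ) ^ 2 * (4 * Real.sin (b * d) * KK (Real.cos (b * (ρ i).re)) (b * d) (b * (τ - (ρ i).im))) :=
        sum_le_sum fun i hi => by linarith [hd (ρ i).re (b * (τ - (ρ i).im)) (by linarith [hρ i hi])]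
    _ ≤ _ := by
      rw [← mul_sum, mul_left_comm, mul_add d, mul_div_cancel₀ _ d0.ne']
      gcongr; linarith

lemma jord {c v : ℝ} (c0 : 0 < c) (c1 : c ≤ 1) (hv : 0 ≤ v) :
    π / 2 ≤ Real.arctan (Real.sinh v / c) + π / 2 * KK c 0 v := by
  have pi0 := Real.pi_pos
  have h := Real.one_sub_mul_le_cos (x := Real.arctan (Real.sinh v / c))
    (Real.arctan_nonneg.2 (div_nonneg (Real.sinh_nonneg_iff.2 hv) c0.le)) (Real.arctan_lt_pi_div_two _).le
  have : Real.cos (Real.arctan (Real.sinh v / c)) ≤ KK c 0 v := by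
    have := Real.cosh_pos v
    rw [Real.cos_arctan, KK, Real.sin_zero, div_le_div_iff₀ (by positivity) (by positivity),
      show 1 * (Real.sinh v ^ 2 + c ^ 2 + 0 ^ 2) = c * (c * √(1 + (Real.sinh v / c) ^ 2)) * √(1 + (Real.sinh v / c) ^ 2) by
        rw [mul_assoc, mul_assoc, Real.mul_self_sqrt (by positivity)]; field_simp; ring]
    gcongr
    refine le_of_sq_le_sq ?_ this.le
    rw [mul_pow, Real.sq_sqrt (by positivity), Real.cosh_sq]; field_simp; nlinarith
  have := mul_le_mul_of_nonneg_left (h.trans this) (half_pos pi0).le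
  rw [mul_sub, ← mul_assoc, show π / 2 * (2 / π) = 1 by field_simp] at this
  linarith

lemma window {ι : Type} (S : Finset ι) (c γ : ι → ℝ) (b0 : 0 < b) {T h A : ℝ} (h0 : 0 ≤ h)
    (hc : ∀ i ∈ S, 0 < c i ∧ c i ≤ 1 ∧ T ≤ γ i ∧ γ i ≤ T + h)
    (hA : ∀ τ ∈ Set.Icc T (T + h), ∑ i ∈ S, KK (c i) 0 (b * (τ - γ i)) ≤ A) : S.card * π ≤ A * (b * h + π) := by
  have d : ∀ τ, HasDerivAt (fun τ => ∑ i ∈ S, Real.arctan (Real.sinh (b * (τ - γ i)) / c i))
      (b * ∑ i ∈ S, KK (c i) 0 (b * (τ - γ i))) τ := fun τ => by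
    rw [mul_sum]
    refine HasDerivAt.fun_sum fun i hi =>
      ((((hasDerivAt_id τ).sub_const _).const_mul b).sinh.div_const _).arctan.congr_deriv ?_
    have := (hc i hi).1
    simp only [KK, id, Real.sin_zero]; field_simp; ring
  have a1 := (convex_Icc T (T + h)).image_sub_le_mul_sub_of_deriv_le (C := b * A)
    (fun τ _ => (d τ).continuousAt.continuousWithinAt) (fun τ _ => (d τ).differentiableAt.differentiableWithinAt)
    (fun τ hτ => by rw [(d τ).deriv]; gcongr; exact hA τ (interior_subset hτ)) T ⟨le_rfl, by linarith⟩ (T + h)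
    ⟨by linarith, le_rfl⟩ (by linarith)
  have a2 := sum_le_sum (s := S) fun i hi => show π ≤ Real.arctan (Real.sinh (b * (T + h - γ i)) / c i) -
      Real.arctan (Real.sinh (b * (T - γ i)) / c i) + π / 2 * (KK (c i) 0 (b * (T + h - γ i)) +
      KK (c i) 0 (b * (T - γ i))) by
    obtain ⟨c0, c1, c2, c3⟩ := hc i hi
    have j1 := jord c0 c1 (mul_nonneg b0.le (sub_nonneg.2 c3))
    have j2 := jord c0 c1 (mul_nonneg b0.le (sub_nonneg.2 c2))
    rw [show b * (T - γ i) = -(b * (γ i - T)) by ring, Real.sinh_neg, neg_div, Real.arctan_neg, KK, KK,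
      Real.sinh_neg, Real.cosh_neg, neg_sq]
    unfold KK at j1 j2
    linarith
  rw [sum_const, nsmul_eq_mul, sum_add_distrib, sum_sub_distrib, ← mul_sum, sum_add_distrib] at a2
  nlinarith [hA T ⟨le_rfl, by linarith⟩, hA (T + h) ⟨by linarith, le_rfl⟩, Real.pi_pos]

lemma log_ev (C : ℝ) (κ0 : 0 < κ) : ∀ᶠ T : ℝ in atTop, 1 ≤ T ∧ ∀ τ, 0 ≤ τ → τ ≤ 2 * T →
    C + Real.log (1 + τ ^ 2) ≤ (1 + κ) * (2 * Real.log T) := by
  filter_upwards [eventually_ge_atTop 1, Real.tendsto_log_atTop.eventually_ge_atTop ((C + Real.log 5) / (2 * κ))]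
    with T h1 h2
  refine ⟨h1, fun τ t0 t1 => ?_⟩
  have : Real.log (1 + τ ^ 2) ≤ Real.log (5 * T ^ 2) := by gcongr; nlinarith
  rw [Real.log_mul (by norm_num) (by positivity), Real.log_pow] at this
  rw [div_le_iff₀ (by positivity)] at h2
  push_cast at this; linarith

lemma kap {ε : ℝ} (hε : 0 < ε) : ∃ κ : ℝ, 0 < κ ∧ κ ≤ 1 ∧ (1 + κ) ^ 4 ≤ 1 + ε := by
  refine ⟨min 1 (ε / 15), by positivity, min_le_left _ _, ?_⟩
  have h0 : 0 < min 1 (ε / 15) := by positivity
  have h1 := min_le_left 1 (ε / 15)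
  have h2 := min_le_right 1 (ε / 15)
  generalize min 1 (ε / 15) = k at *
  nlinarith [pow_le_of_le_one h0.le h1 (n := 2) (by norm_num), pow_le_of_le_one h0.le h1 (n := 3) (by norm_num),
    pow_le_of_le_one h0.le h1 (n := 4) (by norm_num)]

theorem cluster {ε : ℝ} (hε : 0 < ε) : ∀ᶠ T : ℝ in atTop, ∀ h : ℝ, 0 < h → h ≤ T → ∀ S : Finset ℂ,
    (∀ ρ ∈ S, 0 ≤ ρ.re ∧ ρ.re ≤ 1 ∧ T ≤ ρ.im ∧ ρ.im ≤ T + h) →
      (∑ ρ ∈ S, (analyticOrderNatAt riemannZeta ρ : ℝ)) ≤ (1 + ε) * (1 + h) * Real.log T / (2 * π) := by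
  classical
  obtain ⟨κ, κ0, κ1, hκ⟩ := kap hε
  have pi0 := Real.pi_pos
  obtain ⟨C, hC⟩ := sumK (η := κ / 2) (by positivity) (by linarith) κ0 κ1 rfl
  set b := π / (2 * (1 / 2 + κ / 2)) with hb
  have b0 : 0 < b := by positivity
  filter_upwards [log_ev C κ0] with T ⟨T1, hT⟩ h h0 h1 S hS
  let U := S.sigma fun ρ => range (analyticOrderNatAt riemannZeta ρ)
  have hU : ∀ i ∈ U, i.1 ∈ S := fun i hi => (mem_sigma.1 hi).1
  obtain ⟨g, g1, g2⟩ := factor U (fun i => i.1) (fun s => xi (s - 1 / 2)) (by fun_prop) fun z => by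
    by_cases hz : z ∈ S
    swap
    · rw [filter_false_of_mem fun i hi (c : i.1 = z) => hz (c ▸ hU i hi)]; simp
    have im0 : ∀ᶠ s in 𝓝 z, s.im ≠ 0 := continuous_im.continuousAt.eventually_ne (by linarith [(hS z hz).2.2.1])
    have a1 : AnalyticAt ℂ QQ z := analyticAt_iff_eventually_differentiableAt.2 (im0.mono fun s hs => by
      have : DifferentiableAt ℂ (fun s : ℂ => Gamma (s / 2 + 1)) s :=
        DifferentiableAt.comp (g := Gamma) s (differentiableAt_Gamma _ fun k c => hs (by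
          simpa using congrArg im c)) (by fun_prop)
      exact DifferentiableAt.mul (DifferentiableAt.mul (by fun_prop)
        (DifferentiableAt.const_cpow (by fun_prop) (Or.inl (by simp [pi0.ne'])))) this)
    have a2 : AnalyticAt ℂ riemannZeta z := analyticAt_iff_eventually_differentiableAt.2
      (im0.mono fun s hs => differentiableAt_riemannZeta fun c => hs (by simp [c]))
    rw [analyticOrderAt_congr (g := QQ * riemannZeta) (im0.mono fun s hs => xi_eq (Or.inr hs)),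
      analyticOrderAt_mul a1 a2]
    refine le_trans ?_ ((ENat.natCast_toNat_le_self _).trans le_add_self)
    rw [Nat.cast_le, ← analyticOrderNatAt, ← card_range (analyticOrderNatAt _ _)]
    refine card_le_card_of_injOn (fun i => i.2) (fun i hi => ?_) fun i hi j hj e => ?_
    · obtain ⟨u, v⟩ := mem_filter.1 hi
      simpa [← v] using (mem_sigma.1 u).2
    · exact Sigma.ext ((mem_filter.1 hi).2.trans (mem_filter.1 hj).2.symm) (heq_of_eq e)
  have w := window U (fun i => Real.cos (b * (i.1 - 1 / 2).re)) (fun i => (i.1 - 1 / 2).im) b0 h0.le (T := T)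
    (A := (1 + κ) ^ 2 * ((1 + κ) * (2 * Real.log T)) / (4 * b)) (fun i hi => by
      obtain ⟨c1, c2, c3, c4⟩ := hS _ (hU i hi)
      have := cos_pos' (half_pos κ0) hb (β := (i.1 - 1 / 2).re) (by norm_num [abs_le]; constructor <;> linarith)
      exact ⟨this.1.trans_le this.2, Real.cos_le_one _, by simpa, by simpa⟩) fun τ hτ => by
      rw [le_div_iff₀' (by positivity)]
      refine (hC τ _ U (fun i => i.1 - 1 / 2) (fun z => g (z + 1 / 2)) (by fun_prop) (fun i hi => ?_) fun z => ?_).trans ?_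
      · obtain ⟨c1, c2, -⟩ := hS _ (hU i hi)
        norm_num [abs_le]; constructor <;> linarith
      · have := g2 (z + 1 / 2)
        rw [add_sub_cancel_right] at this
        rw [this]; congr 1; exact prod_congr rfl fun _ _ => by ring
      · gcongr; exact hT τ (by linarith [hτ.1]) (by linarith [hτ.2])
  simp only [U, card_sigma, card_range, Nat.cast_sum] at w
  have l0 := Real.log_nonneg T1
  refine le_of_mul_le_mul_right (w.trans ?_) pi0
  calc _ = (1 + κ) ^ 3 * (h + (1 + κ)) * Real.log T / 2 := by rw [hb]; field_simp; ring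
    _ ≤ (1 + κ) ^ 3 * ((1 + κ) * (1 + h)) * Real.log T / 2 := by gcongr; nlinarith
    _ = (1 + κ) ^ 4 * (1 + h) * Real.log T / (2 * π) * π := by field_simp
    _ ≤ _ := by gcongr

end Pool.Agent.Lib.MP_31bf45_nt
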