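import Pool.Agent.Lib.MP_31bf45_nt.Clus

set_option autoImplicit false

namespace Pool.Agent.Lib.MP_31bf45_nt

open Complex Filter Topology Finset
open scoped Real

theorem cluster' {ε : ℝ} (hε : 0 < ε) : ∀ᶠ T : ℝ in atTop, ∀ h : ℝ, 0 < h → h ≤ T → ∀ S : Finset ℂ,
    (∀ ρ ∈ S, 0 ≤ ρ.re ∧ ρ.re ≤ 1 ∧ T ≤ ρ.im ∧ ρ.im ≤ T + h) →
      ∑ ρ ∈ S, analyticOrderAt riemannZeta ρ ≤ (⌊(1 + ε) * (1 + h) * Real.log T / (2 * π)⌋₊ : ℕ∞) := by
  filter_upwards [cluster hε] with T hT h h0 h1 S hS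
  rw [sum_congr rfl fun ρ hρ => (Nat.cast_analyticOrderNatAt
    (analyticOn_riemannZeta.analyticOrderAt_ne_top_of_isPreconnected
      (isConnected_compl_singleton_of_one_lt_rank (by simp) 1).isPreconnected (x := 2) (y := ρ) (by norm_num)
      (fun c => by have := (hS ρ hρ).2.2.1; rw [Set.mem_singleton_iff.1 c] at this; simp at this; linarith) (by
        rw [(analyticOn_riemannZeta 2 (by norm_num)).analyticOrderAt_eq_zero.2
          (riemannZeta_ne_zero_of_one_lt_re (by norm_num))]; simp))).symm, ← Nat.cast_sum, Nat.cast_le]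
  exact Nat.le_floor (by exact_mod_cast hT h h0 h1 S hS)

end Pool.Agent.Lib.MP_31bf45_nt
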