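import Pool.Agent.Lib.MP_31bf45_nt.Jen

set_option autoImplicit false

namespace Pool.Agent.Lib.MP_31bf45_nt

open Complex Filter Topology Finset
open scoped Real ComplexConjugate

lemma cvx (y : ℝ) : ConvexOn ℝ (Set.Ioi 0) fun x : ℝ => Real.log (1 + y ^ 2 / x ^ 2) := by
  have d : ∀ x ∈ Set.Ioi (0 : ℝ), HasDerivAt (fun x : ℝ => Real.log (1 + y ^ 2 / x ^ 2))
      (-(2 * y ^ 2 / (x * (x ^ 2 + y ^ 2)))) x := fun x (hx : 0 < x) => by
    refine ((((hasDerivAt_const x (y ^ 2)).div (hasDerivAt_pow 2 x) (by positivity)).const_add 1).log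
      (by simp only [Pi.div_apply]; positivity)).congr_deriv ?_
    simp only [Pi.div_apply]; field_simp; simp; ring
  refine MonotoneOn.convexOn_of_deriv (convex_Ioi 0) (fun x hx => (d x hx).continuousAt.continuousWithinAt)
    (fun x hx => (d x (interior_subset hx)).differentiableAt.differentiableWithinAt) fun a ha b hb ab => ?_
  have a0 : 0 < a := interior_subset ha
  rw [(d a a0).deriv, (d b (interior_subset hb)).deriv]
  gcongr
  linarith

lemma gs_norm {x : ℝ} (hx : 0 < x) (y : ℝ) {n : ℕ} (hn : 1 ≤ n) : ‖GammaSeq (x + y * I) n‖ ^ 2 =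
    Real.GammaSeq x n ^ 2 * Real.exp (-∑ j ∈ range (n + 1), Real.log (1 + y ^ 2 / (x + j) ^ 2)) := by
  rw [GammaSeq, Real.GammaSeq, norm_div, norm_mul, norm_natCast_cpow_of_pos hn, norm_natCast, norm_prod,
    Real.exp_neg, Real.exp_sum, div_pow, div_pow, ← prod_pow, ← prod_pow, ← div_eq_mul_inv, div_div,
    ← prod_mul_distrib]
  congr 1
  · simp
  · refine prod_congr rfl fun j _ => ?_
    rw [Real.exp_log (by positivity), Complex.sq_norm, normSq_apply]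
    simp; field_simp

lemma gam_up {b δ : ℝ} (hb : 1 < b) (h0 : 0 ≤ δ) (y : ℝ) :
    ‖Gamma ((b + δ : ℝ) + y * I)‖ ^ 2 * Real.Gamma b ^ 2 ≤
      ‖Gamma (b + y * I)‖ ^ 2 * Real.Gamma (b + δ) ^ 2 * (1 + y ^ 2 / (b - 1) ^ 2) ^ δ := by
  rcases h0.eq_or_lt with rfl | h0
  · simp
  refine le_of_tendsto_of_tendsto (((GammaSeq_tendsto_Gamma _).norm.pow 2).mul
    ((Real.GammaSeq_tendsto_Gamma _).pow 2)) ((((GammaSeq_tendsto_Gamma _).norm.pow 2).mul
    ((Real.GammaSeq_tendsto_Gamma _).pow 2)).mul_const _) ?_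
  filter_upwards [eventually_ge_atTop 1] with n hn
  rw [gs_norm (by linarith) y hn, gs_norm (by linarith) y hn, Real.rpow_def_of_pos (by positivity),
    mul_right_comm, mul_right_comm (Real.GammaSeq b n ^ 2), mul_comm (Real.GammaSeq b n ^ 2), mul_assoc (_ * _),
    ← Real.exp_add]
  gcongr
  have t := sum_range_sub' (fun j : ℕ => Real.log (1 + y ^ 2 / (b - 1 + j) ^ 2)) (n + 1)
  have p : 0 ≤ Real.log (1 + y ^ 2 / (b - 1 + (n + 1 : ℕ)) ^ 2) := Real.log_nonneg (by simp; positivity)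
  have := sum_le_sum (s := range (n + 1)) fun (j : ℕ) _ => show Real.log (1 + y ^ 2 / (b + j) ^ 2) -
      Real.log (1 + y ^ 2 / (b + δ + j) ^ 2) ≤ δ * (Real.log (1 + y ^ 2 / (b - 1 + j) ^ 2) -
      Real.log (1 + y ^ 2 / (b - 1 + (j + 1 : ℕ)) ^ 2)) by
    have j0 : (0 : ℝ) ≤ j := j.cast_nonneg
    have := (cvx y).slope_mono_adjacent (x := b - 1 + j) (y := b + j) (z := b + δ + j)
      (show (0 : ℝ) < _ by linarith) (show (0 : ℝ) < _ by linarith) (by linarith) (by linarith)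
    rw [show b + j - (b - 1 + j) = 1 by ring, show b + δ + j - (b + j) = δ by ring, div_one, le_div_iff₀ h0] at this
    rw [show b - 1 + (j + 1 : ℕ) = b + j by push_cast; ring]
    linarith
  rw [sum_sub_distrib, ← mul_sum, t, Nat.cast_zero, add_zero] at this
  nlinarith

lemma gam_half (y : ℝ) : ‖Gamma ((1 / 2 : ℝ) + y * I)‖ ^ 2 = π / Real.cosh (π * y) := by
  have := congrArg norm (Gamma_mul_Gamma_one_sub ((1 / 2 : ℝ) + y * I))
  rw [show 1 - ((1 / 2 : ℝ) + y * I : ℂ) = conj ((1 / 2 : ℝ) + y * I) by apply Complex.ext <;> norm_num,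
    Gamma_conj, norm_mul, RCLike.norm_conj, ← sq,
    show π * ((1 / 2 : ℝ) + y * I : ℂ) = π / 2 - (-(π * y) : ℝ) * I by push_cast; ring, sin_pi_div_two_sub,
    cos_mul_I, ← ofReal_cosh, ← ofReal_div, Real.cosh_neg, norm_real, Real.norm_of_nonneg (by
      have := Real.cosh_pos (π * y); positivity)] at this
  exact this

lemma gam_succ {x : ℝ} (hx : 0 < x) (y : ℝ) :
    ‖Gamma ((x + 1 : ℝ) + y * I)‖ ^ 2 = (x ^ 2 + y ^ 2) * ‖Gamma (x + y * I)‖ ^ 2 := by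
  rw [show ((x + 1 : ℝ) + y * I : ℂ) = x + y * I + 1 by push_cast; ring, Gamma_add_one _ fun c => by
    have := congrArg re c; simp at this; linarith, norm_mul, mul_pow, Complex.sq_norm, normSq_add_mul_I]

noncomputable def NN (e u : ℝ) : ℝ := (1 + u ^ 2) ^ e / Real.cosh (π * (u / 2))

lemma gam_two {δ : ℝ} (h0 : 0 ≤ δ) (h1 : δ ≤ 1) : ∃ c C : ℝ, 0 < c ∧ ∀ u : ℝ,
    c * NN (1 + δ) u ≤ ‖Gamma ((3 / 2 + δ : ℝ) + (u / 2 : ℝ) * I)‖ ^ 2 ∧
      ‖Gamma ((3 / 2 + δ : ℝ) + (u / 2 : ℝ) * I)‖ ^ 2 ≤ C * NN (1 + δ) u := by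
  have g1 := Real.Gamma_pos_of_pos (show (0 : ℝ) < 3 / 2 by norm_num)
  have g2 := Real.Gamma_pos_of_pos (show (0 : ℝ) < 3 / 2 + δ by positivity)
  have g3 := Real.Gamma_pos_of_pos (show (0 : ℝ) < 3 / 2 + 1 by positivity)
  have pi0 := Real.pi_pos
  refine ⟨π / 16 * Real.Gamma (3 / 2 + δ) ^ 2 / Real.Gamma (3 / 2 + 1) ^ 2,
    π / 4 * Real.Gamma (3 / 2 + δ) ^ 2 / Real.Gamma (3 / 2) ^ 2, by positivity, fun u => ?_⟩
  have c0 := Real.cosh_pos (π * (u / 2))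
  have e1 := gam_succ one_half_pos (u / 2)
  have e2 := gam_succ (x := 3 / 2) (by norm_num) (u / 2)
  rw [gam_half, show (1 / 2 + 1 : ℝ) = 3 / 2 by norm_num] at e1
  have u1 := gam_up (b := 3 / 2) (by norm_num) h0 (u / 2)
  have u2 := gam_up (b := 3 / 2 + δ) (by linarith) (sub_nonneg.2 h1) (u / 2)
  rw [show 3 / 2 + δ + (1 - δ) = 3 / 2 + 1 by ring, e2, e1] at u2
  rw [e1, show 1 + (u / 2) ^ 2 / (3 / 2 - 1) ^ 2 = 1 + u ^ 2 by ring] at u1
  have p0 : 0 < 1 + u ^ 2 := by positivity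
  constructor
  · have a1 : (1 + (u / 2) ^ 2 / (3 / 2 + δ - 1) ^ 2) ^ (1 - δ) ≤ (1 + u ^ 2) ^ (1 - δ) := by
      rw [show u ^ 2 = (u / 2) ^ 2 / (1 / 2) ^ 2 by ring]; gcongr; linarith
    rw [div_mul_eq_mul_div, div_le_iff₀ (by positivity)]
    refine le_of_mul_le_mul_right (le_trans ?_ (u2.trans (mul_le_mul_of_nonneg_left a1 (by positivity))))
      (Real.rpow_pos_of_pos p0 _)
    rw [NN, mul_assoc, div_mul_eq_mul_div ((1 + u ^ 2) ^ _), ← Real.rpow_add p0, show 1 + δ + (1 - δ) = (2 : ℕ) by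
      push_cast; ring, Real.rpow_natCast]
    calc _ = ((1 / 2) ^ 2 + (u / 2) ^ 2) * (((1 / 2) ^ 2 + (u / 2) ^ 2) * (π / Real.cosh (π * (u / 2)))) *
          Real.Gamma (3 / 2 + δ) ^ 2 := by ring
      _ ≤ _ := by gcongr; norm_num
  · rw [div_mul_eq_mul_div, le_div_iff₀ (by positivity)]
    refine u1.trans (le_of_eq ?_)
    rw [NN, Real.rpow_add p0, Real.rpow_one]; ring

lemma gam_arg {x δ y : ℝ} (hx : 0 < x) (h0 : 0 ≤ δ) (h1 : δ ≤ 1) (hy : 0 ≤ y) :
    0 ≤ (Gamma ((x + δ : ℝ) + y * I) / Gamma (x + y * I)).re := by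
  let θ : ℝ → ℝ := fun a => arg (a + y * I)
  have m : ∀ a b, 0 < a → a ≤ b → θ b ≤ θ a := fun a b a0 ab => by
    simp only [θ]
    rw [arg_of_re_nonneg (by simp; linarith), arg_of_re_nonneg (by simp; linarith), norm_add_mul_I, norm_add_mul_I]
    simp only [add_im, ofReal_im, mul_im, ofReal_re, I_im, I_re, mul_one, mul_zero, zero_add, add_zero]
    gcongr
  refine ge_of_tendsto ((continuous_re.tendsto _).comp ((GammaSeq_tendsto_Gamma _).div (GammaSeq_tendsto_Gamma _)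
    (Gamma_ne_zero_of_re_pos (by simpa)))) ?_
  filter_upwards [eventually_ge_atTop 1] with n hn
  have n0 : (n : ℂ) ≠ 0 := by exact_mod_cast (by omega : n ≠ 0)
  have e : GammaSeq ((x + δ : ℝ) + y * I) n / GammaSeq (x + y * I) n = (((n : ℝ) ^ δ *
      ∏ j ∈ range (n + 1), ‖((x + j : ℝ) + y * I : ℂ)‖ / ‖((x + δ + j : ℝ) + y * I : ℂ)‖ : ℝ) : ℂ) *
      exp ((∑ j ∈ range (n + 1), (θ (x + j) - θ (x + δ + j)) : ℝ) * I) := by
    rw [GammaSeq, GammaSeq, show ((x + δ : ℝ) + y * I : ℂ) = δ + (x + y * I) by push_cast; ring, cpow_add _ _ n0,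
      div_div_div_comm, mul_assoc, mul_div_cancel_right₀ _ (mul_ne_zero (by simp [n0]) (by simp [Nat.factorial_ne_zero])),
      div_div_eq_mul_div, mul_div_assoc, ← prod_div_distrib, ofReal_mul, ofReal_cpow n.cast_nonneg, ofReal_natCast,
      mul_assoc, ofReal_sum, sum_mul, exp_sum, ofReal_prod, ← prod_mul_distrib]
    congr 1
    refine prod_congr rfl fun j _ => ?_
    rw [ofReal_sub, sub_mul, exp_sub, ofReal_div, div_mul_div_comm, norm_mul_exp_arg_mul_I, norm_mul_exp_arg_mul_I]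
    push_cast; congr 1 <;> ring
  have t := sum_range_sub' (fun j : ℕ => θ (x + j)) (n + 1)
  have a1 : 0 ≤ ∑ j ∈ range (n + 1), (θ (x + j) - θ (x + δ + j)) :=
    sum_nonneg fun j _ => sub_nonneg.2 (m _ _ (by positivity) (by linarith))
  have a2 := sum_le_sum (s := range (n + 1)) fun (j : ℕ) _ => show θ (x + j) - θ (x + δ + j) ≤
    θ (x + j) - θ (x + (j + 1 : ℕ)) from sub_le_sub_left (m _ _ (by positivity) (by push_cast; linarith)) _
  have a3 : θ (x + (0 : ℕ)) ≤ π / 2 := arg_le_pi_div_two_iff.2 (Or.inl (by simp; linarith))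
  have a4 : 0 ≤ θ (x + (n + 1 : ℕ)) := arg_nonneg_iff.2 (by simpa)
  simp only [Function.comp, Pi.div_apply]
  rw [e, re_ofReal_mul, exp_ofReal_mul_I_re]
  exact mul_nonneg (by positivity) (Real.cos_nonneg_of_mem_Icc ⟨by linarith [Real.pi_pos], 
    a2.trans (t.le.trans ((sub_le_self _ a4).trans a3))⟩)

end Pool.Agent.Lib.MP_31bf45_nt
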