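import Mathlib

set_option autoImplicit false

namespace Pool.Agent.Lib.MP_31bf45_nt

open Complex Filter Topology Finset
open scoped Real ComplexConjugate

lemma factor {ι : Type} (I : Finset ι) (ρ : ι → ℂ) : ∀ f : ℂ → ℂ, Differentiable ℂ f →
    (∀ z, ((I.filter fun i => ρ i = z).card : ℕ∞) ≤ analyticOrderAt f z) →
    ∃ g : ℂ → ℂ, Differentiable ℂ g ∧ ∀ s, f s = (∏ i ∈ I, (s - ρ i)) * g s := by
  classical
  induction I using Finset.induction_on with
  | empty => exact fun f hf _ => ⟨f, hf, by simp⟩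
  | insert i I hi ih =>
    intro f hf h
    have f0 : f (ρ i) = 0 := by
      by_contra c
      have := h (ρ i)
      rw [(hf.analyticAt _).analyticOrderAt_eq_zero.2 c, filter_insert, if_pos rfl, card_insert_of_notMem (by simp [hi])] at this
      simp at this
    have d : Differentiable ℂ (dslope f (ρ i)) :=
      differentiableOn_univ.1 ((differentiableOn_dslope univ_mem).2 hf.differentiableOn)
    have e : f = (fun s => s - ρ i) * dslope f (ρ i) := by
      funext s; simpa [f0] using (sub_smul_dslope f (ρ i) s).symm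
    obtain ⟨g, g1, g2⟩ := ih _ d fun z => by
      have := h z
      rw [e, analyticOrderAt_mul (by fun_prop) (d.analyticAt _), filter_insert] at this
      split_ifs at this with c
      · rw [card_insert_of_notMem (by simp [hi]), ← c, analyticOrderAt_id_sub_const_self, add_comm 1] at this
        rw [← c]; exact (ENat.add_le_add_iff_right ENat.one_ne_top).1 (by exact_mod_cast this)
      · rwa [analyticOrderAt_id_sub_const_of_ne (Ne.symm c), zero_add] at this
    exact ⟨g, g1, fun s => by rw [prod_insert hi, mul_assoc, ← g2]; exact congrFun e s⟩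

lemma normSq_cos (x y c : ℝ) : ‖cos (x + y * I) + c‖ ^ 2 =
    Real.sinh y ^ 2 + Real.cos x ^ 2 + c ^ 2 + 2 * c * Real.cos x * Real.cosh y := by
  rw [cos_add_mul_I, ← ofReal_cos, ← ofReal_cosh, ← ofReal_sin, ← ofReal_sinh, Complex.sq_norm, normSq_apply]
  simp only [add_re, sub_re, mul_re, ofReal_re, ofReal_im, I_re, I_im, add_im, sub_im, mul_im]
  linear_combination Real.cos x ^ 2 * Real.cosh_sq y + Real.sinh y ^ 2 * Real.sin_sq_add_cos_sq x

noncomputable def sc : ℂ → ℂ := dslope sin 0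

lemma sc_diff : Differentiable ℂ sc :=
  differentiableOn_univ.1 ((differentiableOn_dslope univ_mem).2 differentiable_sin.differentiableOn)

lemma sc_mul (u : ℂ) : u * sc u = sin u := by simpa [sc] using sub_smul_dslope sin 0 u

lemma sc_ne {u : ℂ} (h : |u.re| < π) : sc u ≠ 0 := fun c => by
  obtain ⟨k, rfl⟩ := sin_eq_zero_iff.1 (by rw [← sc_mul, c, mul_zero] : sin u = 0)
  have : k = 0 := by
    simp only [mul_re, intCast_re, ofReal_re, ofReal_im, mul_zero, sub_zero, abs_mul, abs_of_pos Real.pi_pos] at h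
    have := (mul_lt_iff_lt_one_left Real.pi_pos).1 h
    exact Int.abs_lt_one_iff.1 (by exact_mod_cast this)
  simp [this, sc] at c

noncomputable def KK (c q v : ℝ) : ℝ := c * Real.cosh v / (Real.sinh v ^ 2 + c ^ 2 + Real.sin q ^ 2)

lemma pair_le {c q : ℝ} (hc : 0 < c) (hq : 0 ≤ Real.sin q) (v : ℝ) :
    ‖cos ((π / 2 - q : ℝ) + v * I) + (-c : ℝ)‖ ^ 2 * Real.exp (4 * Real.sin q * KK c q v) ≤
      ‖cos ((π / 2 - q : ℝ) + v * I) + c‖ ^ 2 := by
  have := sq_nonneg ‖cos ((π / 2 - q : ℝ) + v * I) + (-c : ℝ)‖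
  have := Real.cosh_pos v
  rw [normSq_cos, Real.cos_pi_div_two_sub, neg_sq] at *
  rw [normSq_cos, Real.cos_pi_div_two_sub, KK, add_right_comm (Real.sinh v ^ 2) (c ^ 2)]
  have E0 : 0 < Real.sinh v ^ 2 + Real.sin q ^ 2 + c ^ 2 := by positivity
  generalize Real.sinh v ^ 2 + Real.sin q ^ 2 + c ^ 2 = E at *
  rw [show 4 * Real.sin q * (c * Real.cosh v / E) = 2 * (2 * c * Real.sin q * Real.cosh v) / E by ring,
    show 2 * -c * Real.sin q * Real.cosh v = -(2 * c * Real.sin q * Real.cosh v) by ring] at *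
  have F0 : 0 ≤ 2 * c * Real.sin q * Real.cosh v := by positivity
  generalize 2 * c * Real.sin q * Real.cosh v = F at *
  rcases (show 0 ≤ E + -F by assumption).eq_or_lt with h | h
  · rw [← h, zero_mul]; positivity
  have := Real.le_log_one_add_of_nonneg (x := 2 * F / (E + -F)) (by positivity)
  rw [show 2 * (2 * F / (E + -F)) / (2 * F / (E + -F) + 2) = 2 * F / E by
    rw [div_add' _ _ _ h.ne', div_div_eq_mul_div, mul_assoc, div_mul_cancel₀ _ h.ne',
      show 2 * F + 2 * (E + -F) = 2 * E by ring, mul_div_mul_left _ _ two_ne_zero],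
    Real.le_log_iff_exp_le (by positivity)] at this
  refine (mul_le_mul_of_nonneg_left this h.le).trans (le_of_eq ?_)
  field_simp; ring

theorem jen {ι : Type} (S : Finset ι) (ρ : ι → ℂ) {r b d A B : ℝ} (hr : 0 < r) (hb : b = π / (2 * r)) (d0 : 0 < d)
    (d1 : d ≤ r) (hρ : ∀ i ∈ S, |(ρ i).re| < r) {f g : ℂ → ℂ} (hg : Differentiable ℂ g)
    (hf : ∀ z, f z = (∏ i ∈ S, (z - ρ i) * (z + conj (ρ i))) * g z) (hB : ∀ z, |z.re| ≤ r → ‖f z‖ ≤ B)
    (hA : ∀ z, |z.re| = r → ‖f z‖ ≤ A) (τ : ℝ) :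
    ‖f ((r - d : ℝ) + τ * I)‖ ^ 2 * Real.exp (∑ i ∈ S, 4 * Real.sin (b * d) *
      KK (Real.cos (b * (ρ i).re)) (b * d) (b * (τ - (ρ i).im))) ≤ A ^ 2 := by
  have pi0 := Real.pi_pos
  have b0 : 0 < b := by rw [hb]; positivity
  have br : b * r = π / 2 := by rw [hb]; field_simp
  let c : ι → ℝ := fun i => Real.cos (b * (ρ i).re)
  have c0 : ∀ i ∈ S, 0 < c i := fun i hi => Real.cos_pos_of_mem_Ioo (abs_lt.1 (by
    rw [abs_mul, abs_of_pos b0, ← br]; gcongr; exact hρ i hi))
  let w : ι → ℂ → ℂ := fun i z => cos ((b * z.re : ℝ) + (b * (z.im - (ρ i).im) : ℝ) * I)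
  have hw : ∀ i z, w i z = cos (b * (z - (ρ i).im * I)) := fun i z => by
    simp only [w]; congr 1; apply Complex.ext <;> simp
  let t : ι → ℂ → ℂ := fun i z => -(b ^ 2 / 2) * sc (b * (z + conj (ρ i)) / 2) * sc (b * (z - ρ i) / 2)
  have ht : ∀ i z, w i z + (-c i : ℝ) = (z - ρ i) * (z + conj (ρ i)) * t i z := fun i z => by
    rw [hw, ofReal_neg, ← sub_eq_add_neg, ofReal_cos, cos_sub_cos, ← sc_mul, ← sc_mul,
      show (b * (z - (ρ i).im * I) + (b * (ρ i).re : ℝ)) / 2 = b * (z + conj (ρ i)) / 2 by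
        congr 1; apply Complex.ext <;> simp [mul_add, sub_eq_add_neg],
      show (b * (z - (ρ i).im * I) - (b * (ρ i).re : ℝ)) / 2 = b * (z - ρ i) / 2 by
        congr 1; apply Complex.ext <;> simp <;> ring]
    simp only [t]; ring
  have t0 : ∀ i ∈ S, ∀ z : ℂ, |z.re| ≤ r → t i z ≠ 0 := fun i hi z hz => by
    have := abs_lt.1 (hρ i hi)
    have := abs_le.1 hz
    refine mul_ne_zero (mul_ne_zero (by simp [b0.ne']) (sc_ne ?_)) (sc_ne ?_) <;> simp <;> rw [abs_lt] <;>
      constructor <;> nlinarith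
  let G : ℂ → ℂ := fun z => g z * ∏ i ∈ S, (w i z + c i) / t i z
  have key : ∀ z : ℂ, |z.re| ≤ r → ‖G z‖ * ∏ i ∈ S, ‖w i z + (-c i : ℝ)‖ = ‖f z‖ * ∏ i ∈ S, ‖w i z + c i‖ :=
    fun z hz => by
      rw [← norm_prod, ← norm_prod, ← norm_mul, ← norm_mul, hf, mul_assoc, mul_right_comm, ← prod_mul_distrib,
        ← prod_mul_distrib, mul_comm (g z)]
      congr 2
      exact prod_congr rfl fun i hi => by rw [ht]; field_simp [t0 i hi z hz]
  have bd : ∀ z : ℂ, |z.re| = r → ‖G z‖ ≤ A := fun z hz => by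
    have e : Real.cos (b * z.re) = 0 := by
      rw [← Real.cos_abs, abs_mul, hz, abs_of_pos b0, br, Real.cos_pi_div_two]
    have := key z hz.le
    rw [prod_congr rfl fun i hi => show ‖w i z + (-c i : ℝ)‖ = ‖w i z + c i‖ by
      rw [← sq_eq_sq₀ (norm_nonneg _) (norm_nonneg _), normSq_cos, normSq_cos, e]; ring] at this
    rw [mul_right_cancel₀ (prod_pos fun i hi => ?_).ne' this]
    · exact hA z hz
    · have := c0 i hi
      rw [← sq_pos_iff.trans norm_ne_zero_iff |>.trans norm_pos_iff.symm, normSq_cos, e]; positivity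
  have main : ‖G ((r - d : ℝ) + τ * I)‖ ≤ A := by
    refine PhragmenLindelof.vertical_strip (a := -r) (b := r) (DifferentiableOn.diffContOnCl ?_)
      ⟨0, div_pos pi0 (by linarith), 0, Asymptotics.IsBigO.of_bound (B * 3 ^ S.card) ?_⟩
      (fun z hz => bd z (by rw [hz, abs_neg, abs_of_pos hr])) (fun z hz => bd z (by rw [hz, abs_of_pos hr]))
      (by simp; linarith) (by simp; linarith)
    · rw [closure_preimage_re, closure_Ioo (by linarith)]
      refine fun z hz => (DifferentiableAt.mul (hg z) (DifferentiableAt.fun_finsetProd fun i hi =>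
        DifferentiableAt.div ?_ ?_ (t0 i hi z (abs_le.2 hz)))).differentiableWithinAt
      · simp only [hw]; fun_prop
      · have := sc_diff; fun_prop
    · have : ∀ᶠ z : ℂ in comap (_root_.abs ∘ im) atTop, ∀ i ∈ S, 2 / b + |(ρ i).im| ≤ |z.im| :=
        (eventually_all_finset S).2 fun i _ => tendsto_comap.eventually (eventually_ge_atTop _)
      filter_upwards [mem_inf_of_left this, mem_inf_of_right (mem_principal_self _)] with z h1 h2
      have hz : |z.re| ≤ r := abs_le.2 ⟨h2.1.le, h2.2.le⟩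
      have w2 : ∀ i ∈ S, 2 ≤ ‖w i z‖ := fun i hi => by
        have a1 := normSq_cos (b * z.re) (b * (z.im - (ρ i).im)) 0
        have a2 : 2 ≤ |b * (z.im - (ρ i).im)| := by
          rw [abs_mul, abs_of_pos b0, ← div_le_iff₀' b0]
          linarith [h1 i hi, abs_sub_abs_le_abs_sub z.im (ρ i).im]
        have a3 := a2.trans (Real.self_le_sinh_iff.2 (abs_nonneg _))
        rw [← Real.abs_sinh] at a3
        simp only [ofReal_zero, add_zero] at a1
        refine (sq_le_sq₀ zero_le_two (norm_nonneg _)).1 ?_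
        nlinarith [sq_abs (Real.sinh (b * (z.im - (ρ i).im))), sq_nonneg (Real.cos (b * z.re))]
      have n1 : ∀ i ∈ S, ‖w i z‖ - 1 ≤ ‖w i z + (-c i : ℝ)‖ ∧ ‖w i z + c i‖ ≤ ‖w i z‖ + 1 := fun i hi => by
        have : ‖(c i : ℂ)‖ ≤ 1 := by rw [norm_real]; exact Real.abs_cos_le_one _
        rw [ofReal_neg, ← sub_eq_add_neg]
        exact ⟨by linarith [norm_sub_norm_le (w i z) (c i)], by linarith [norm_add_le (w i z) (c i)]⟩
      simp only [zero_mul, Real.exp_zero, norm_one, mul_one]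
      refine le_of_mul_le_mul_right ?_ (prod_pos fun i hi => show 0 < ‖w i z + (-c i : ℝ)‖ by
        linarith [n1 i hi, w2 i hi])
      rw [key z hz, mul_assoc, ← prod_const, ← prod_mul_distrib]
      exact mul_le_mul (hB z hz) (prod_le_prod (fun _ _ => norm_nonneg _) fun i hi => by
        linarith [n1 i hi, w2 i hi]) (prod_nonneg fun _ _ => norm_nonneg _) ((norm_nonneg _).trans (hB z hz))
  have k := key ((r - d : ℝ) + τ * I) (by simp; rw [abs_le]; constructor <;> linarith)
  have q0 : 0 ≤ Real.sin (b * d) := Real.sin_nonneg_of_nonneg_of_le_pi (by positivity) (by nlinarith)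
  have e : ∀ i, w i ((r - d : ℝ) + τ * I) = cos ((π / 2 - b * d : ℝ) + (b * (τ - (ρ i).im) : ℝ) * I) := fun i => by
    simp only [w]; congr 3 <;> simp [← br, mul_sub]
  simp only [e] at k
  refine le_of_mul_le_mul_right ?_ (prod_pos fun i hi => show 0 < ‖cos ((π / 2 - b * d : ℝ) +
    (b * (τ - (ρ i).im) : ℝ) * I) + c i‖ ^ 2 by
      have := c0 i hi
      have := Real.cosh_pos (b * (τ - (ρ i).im))
      rw [normSq_cos, Real.cos_pi_div_two_sub]; positivity)
  rw [prod_pow, mul_right_comm, ← mul_pow, ← k, mul_pow, mul_assoc, ← prod_pow, ← prod_pow, Real.exp_sum,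
    ← prod_mul_distrib]
  exact mul_le_mul (by gcongr) (prod_le_prod (fun _ _ => by positivity) fun i hi => pair_le (c0 i hi) q0 _)
    (prod_nonneg fun _ _ => by positivity) (sq_nonneg _)

end Pool.Agent.Lib.MP_31bf45_nt
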