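import Pool.Agent.Lib.MP_31bf45_nt.Gam

set_option autoImplicit false

namespace Pool.Agent.Lib.MP_31bf45_nt

open Complex Filter Topology Finset MeasureTheory
open scoped Real ComplexConjugate

noncomputable def xi (z : ℂ) : ℂ := (1 / 2 + z) * (1 / 2 + z - 1) * completedRiemannZeta₀ (1 / 2 + z) + 1
noncomputable def QQ (s : ℂ) : ℂ := (s - 1) * 2 * π ^ (-s / 2) * Gamma (s / 2 + 1)
noncomputable def Lz (s : ℂ) : ℂ := ∑' p : Nat.Primes, -log (1 - p ^ (-s))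

@[fun_prop] lemma xi_diff : Differentiable ℂ xi := by
  have := differentiable_completedZeta₀
  unfold xi; fun_prop

lemma xi_neg (z : ℂ) : xi (-z) = xi z := by
  rw [xi, xi, ← completedRiemannZeta₀_one_sub, show 1 - (1 / 2 + -z) = 1 / 2 + z by ring]; ring

lemma xi_eq {s : ℂ} (h : 1 < s.re ∨ s.im ≠ 0) : xi (s - 1 / 2) = QQ s * riemannZeta s := by
  have h0 : s ≠ 0 := by rintro rfl; norm_num at h
  have h1 : 1 - s ≠ 0 := fun c => by rw [← sub_eq_zero.1 c] at h; simp at h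
  have h2 : Gammaℝ s ≠ 0 := fun c => by
    obtain ⟨n, rfl⟩ := Gammaℝ_eq_zero_iff.1 c
    simp at h; linarith [(n.cast_nonneg : (0 : ℝ) ≤ n)]
  rw [riemannZeta_def_of_ne_zero h0, completedRiemannZeta_eq, xi, QQ, add_sub_cancel,
    Gamma_add_one _ (by simpa), mul_assoc _ (_ ^ _), mul_left_comm (_ ^ _), ← Gammaℝ_def]
  field_simp; ring

lemma xi_conj (z : ℂ) : xi (conj z) = conj (xi z) := by
  have d : Differentiable ℂ fun z => conj (xi (conj z)) := fun z =>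
    differentiableAt_conj_conj_iff.mpr (xi_diff _)
  have := (d.differentiableOn.analyticOnNhd isOpen_univ).eq_of_eventuallyEq
    (xi_diff.differentiableOn.analyticOnNhd isOpen_univ) (z₀ := 1) (eventuallyEq_of_mem
      ((isOpen_lt (continuous_const (y := (1 / 2 : ℝ))) continuous_re).mem_nhds (by norm_num)) fun w hw => by
      have hw : 1 / 2 < w.re := hw
      have e1 := xi_eq (s := w + 1 / 2) (Or.inl (by norm_num; linarith))
      have e2 := xi_eq (s := conj (w + 1 / 2)) (Or.inl (by norm_num; linarith))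
      rw [add_sub_cancel_right] at e1
      rw [show conj (w + 1 / 2) - 1 / 2 = conj w by simp [map_ofNat], riemannZeta_conj, QQ,
        show conj (w + 1 / 2) / 2 + 1 = conj ((w + 1 / 2) / 2 + 1) by simp [map_ofNat], Gamma_conj,
        show -conj (w + 1 / 2) / 2 = conj (-(w + 1 / 2) / 2) by simp [map_ofNat],
        cpow_conj _ _ (by rw [arg_ofReal_of_nonneg Real.pi_pos.le]; exact Real.pi_pos.ne)] at e2
      simp only [e1, e2, QQ, map_mul, conj_conj, conj_ofReal, map_sub, map_one, map_ofNat])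
  simpa using congrArg conj (congrFun this z)

lemma xi_bdd : ∃ B, ∀ z : ℂ, |z.re| ≤ 3 / 2 → ‖xi z‖ ≤ B * (1 + z.im ^ 2) := by
  have h := fun s => ((HurwitzZeta.hurwitzEvenFEPair 0).isStrongFEPair_toStrongFEPair.hasMellin s).1
  have i := (h (-1)).norm.add (h 1).norm
  suffices ∃ B, ∀ z : ℂ, |z.re| ≤ 3 / 2 → ‖completedRiemannZeta₀ (1 / 2 + z)‖ ≤ B by
    obtain ⟨B, hB⟩ := this
    refine ⟨3 * B + 1, fun z hz => (norm_add_le _ _).trans ?_⟩
    have a2 : ‖(1 / 2 + z) * (1 / 2 + z - 1)‖ ≤ 3 * (1 + z.im ^ 2) := by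
      rw [show (1 / 2 + z) * (1 / 2 + z - 1) = z ^ 2 - 1 / 4 by ring]
      refine (norm_sub_le _ _).trans ?_
      rw [norm_pow, Complex.sq_norm, normSq_apply]
      norm_num
      nlinarith [abs_le.1 hz, sq_nonneg z.im]
    rw [norm_mul, norm_one]
    nlinarith [mul_le_mul a2 (hB z hz) (norm_nonneg _) (by positivity), sq_nonneg z.im]
  exact ⟨_, fun z hz => (norm_div _ _).le.trans ((div_le_self (norm_nonneg _)
    (by simp)).trans (norm_integral_le_of_norm_le i (ae_restrict_of_forall_mem measurableSet_Ioi fun t (ht : 0 < t) => by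
      simp only [Pi.add_apply, norm_smul, norm_cpow_eq_rpow_re_of_pos ht]
      rw [← add_mul]
      refine mul_le_mul_of_nonneg_right ?_ (norm_nonneg _)
      rw [abs_le] at hz
      rcases le_total t 1 with c | c
      · exact le_add_of_le_of_nonneg (Real.rpow_le_rpow_of_exponent_ge ht c (by simp; linarith)) (by positivity)
      · exact le_add_of_nonneg_of_le (by positivity) (Real.rpow_le_rpow_of_exponent_le c (by simp; linarith)))))⟩

lemma Lz_bd {e : ℝ} (he : 0 < e) : ContinuousOn Lz {s | 1 + e ≤ s.re} ∧ ∃ L, ∀ s : ℂ, 1 + e ≤ s.re → ‖Lz s‖ ≤ L := by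
  have sm : Summable fun p : Nat.Primes => 3 / 2 * (p : ℝ) ^ (-(1 + e)) :=
    (Nat.Primes.summable_rpow.2 (by linarith)).mul_left _
  have a : ∀ (p : Nat.Primes) (s : ℂ), 1 + e ≤ s.re → ‖(p : ℂ) ^ (-s)‖ ≤ (p : ℝ) ^ (-(1 + e)) ∧
      ‖(p : ℂ) ^ (-s)‖ ≤ 1 / 2 := fun p s hs => by
    have p2 : (2 : ℝ) ≤ p := by exact_mod_cast p.2.two_le
    rw [norm_natCast_cpow_of_pos p.2.pos, neg_re]
    refine ⟨Real.rpow_le_rpow_of_exponent_le (by linarith) (by linarith),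
      (Real.rpow_le_rpow_of_exponent_le (by linarith) (show _ ≤ -1 by linarith)).trans ?_⟩
    rw [Real.rpow_neg_one, ← one_div]; gcongr
  have b : ∀ (p : Nat.Primes) (s : ℂ), 1 + e ≤ s.re → ‖-log (1 - (p : ℂ) ^ (-s))‖ ≤ 3 / 2 * (p : ℝ) ^ (-(1 + e)) :=
    fun p s hs => by
      rw [norm_neg, sub_eq_add_neg]
      refine (norm_log_one_add_half_le_self (by rw [norm_neg]; exact (a p s hs).2)).trans ?_
      rw [norm_neg]; gcongr; exact (a p s hs).1
  refine ⟨continuousOn_tsum (fun p => ContinuousOn.neg (ContinuousOn.clog (Continuous.continuousOn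
    (continuous_const.sub (continuous_neg.const_cpow (Or.inl (by exact_mod_cast p.2.ne_zero))))) fun s hs => ?_)) sm b,
    _, fun s hs => tsum_of_norm_bounded sm.hasSum fun p => b p s hs⟩
  rw [sub_eq_add_neg]
  exact mem_slitPlane_of_norm_lt_one (by rw [norm_neg]; linarith [(a p s hs).2])

lemma xi_two {e : ℝ} (h0 : 0 < e) (h1 : e ≤ 1) : ∃ c C : ℝ, 0 < c ∧ ∀ u : ℝ,
    c * NN (2 + e / 2) u ≤ ‖xi ((1 / 2 + e : ℝ) + u * I)‖ ^ 2 ∧
      ‖xi ((1 / 2 + e : ℝ) + u * I)‖ ^ 2 ≤ C * NN (2 + e / 2) u := by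
  obtain ⟨c, C, c0, h⟩ := gam_two (δ := e / 2) (by positivity) (by linarith)
  obtain ⟨-, L, hL⟩ := Lz_bd h0
  have pi0 := Real.pi_pos
  refine ⟨e ^ 2 * (2 * π ^ (-(1 + e) / 2)) ^ 2 * c * Real.exp (-L) ^ 2,
    (2 * π ^ (-(1 + e) / 2)) ^ 2 * C * Real.exp L ^ 2, by positivity, fun u => ?_⟩
  have p0 : 0 < 1 + u ^ 2 := by positivity
  have c1 := Real.cosh_pos (π * (u / 2))
  have n : NN (2 + e / 2) u = (1 + u ^ 2) * NN (1 + e / 2) u := by
    rw [NN, NN, show 2 + e / 2 = 1 + (1 + e / 2) by ring, Real.rpow_add p0, Real.rpow_one, mul_div_assoc]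
  have n0 : 0 ≤ NN (1 + e / 2) u := by unfold NN; positivity
  have e1 := xi_eq (s := (1 + e : ℝ) + u * I) (Or.inl (by simpa))
  have l := abs_le.1 ((abs_re_le_norm _).trans (hL ((1 + e : ℝ) + u * I) (by simp)))
  rw [show ((1 + e : ℝ) + u * I - 1 / 2 : ℂ) = (1 / 2 + e : ℝ) + u * I by push_cast; ring,
    ← riemannZeta_eulerProduct_exp_log (by simpa), ← Lz, QQ,
    show (((1 + e : ℝ) + u * I) / 2 + 1 : ℂ) = (3 / 2 + e / 2 : ℝ) + (u / 2 : ℝ) * I by push_cast; ring,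
    show ((1 + e : ℝ) + u * I - 1 : ℂ) = e + u * I by push_cast; ring] at e1
  rw [e1, n, mul_assoc (e + u * I : ℂ), norm_mul, norm_mul, norm_mul, norm_mul, norm_cpow_eq_rpow_re_of_pos pi0,
    norm_exp, mul_pow (_ * _ * _), mul_pow (_ * _), mul_pow ‖_‖, Complex.sq_norm (e + _), normSq_add_mul_I, Complex.norm_ofNat,
    show (-((1 + e : ℝ) + u * I : ℂ) / 2).re = -(1 + e) / 2 by simp]
  obtain ⟨h2, h3⟩ := h u
  constructor
  · calc _ = e ^ 2 * (1 + u ^ 2) * (2 * π ^ (-(1 + e) / 2)) ^ 2 * (c * NN (1 + e / 2) u) * Real.exp (-L) ^ 2 := by ring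
      _ ≤ _ := by gcongr; exacts [by nlinarith [mul_le_mul_of_nonneg_right (show e ^ 2 ≤ 1 by nlinarith) (sq_nonneg u)], l.1]
  · calc _ ≤ (1 + u ^ 2) * (2 * π ^ (-(1 + e) / 2)) ^ 2 * (C * NN (1 + e / 2) u) * Real.exp L ^ 2 := by
          gcongr; exacts [mul_nonneg (by positivity) ((sq_nonneg _).trans h3), by nlinarith, l.2]
      _ = _ := by ring

lemma NN_le {a δ : ℝ} (a0 : 0 ≤ a + δ) (a1 : a + δ ≤ 3) (τ u : ℝ) :
    NN (a + δ) u * Real.exp (-(u - τ) ^ 2) ^ 2 ≤ Real.exp 8 * ((1 + τ ^ 2) ^ δ * NN a τ) := by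
  obtain ⟨t, rfl⟩ : ∃ t, u = τ + t := ⟨u - τ, by ring⟩
  have c1 := Real.cosh_pos (π * (τ / 2))
  have c2 := Real.cosh_pos (π * ((τ + t) / 2))
  have t0 := abs_nonneg t
  have h1 : 1 + (τ + t) ^ 2 ≤ (1 + τ ^ 2) * Real.exp (2 * |t|) := by
    have : (1 + |t|) ^ 2 ≤ Real.exp (2 * |t|) := by
      rw [two_mul, Real.exp_add, sq]; gcongr <;> linarith [Real.add_one_le_exp |t|]
    refine le_trans ?_ (mul_le_mul_of_nonneg_left this (by positivity))
    nlinarith [sq_abs t, sq_abs τ, le_abs_self (τ * t), abs_mul τ t, mul_nonneg t0 (sq_nonneg (|τ| - 1)),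
      mul_nonneg (sq_nonneg τ) (sq_nonneg t), mul_nonneg t0 (sq_nonneg τ)]
  have h2 : Real.cosh (π * (τ / 2)) ≤ Real.cosh (π * ((τ + t) / 2)) * Real.exp (2 * |t|) := by
    have := abs_le.1 (show |π * (t / 2)| ≤ 2 * |t| by
      rw [abs_mul, abs_div, abs_of_pos Real.pi_pos, abs_two]; nlinarith [Real.pi_le_four])
    rw [Real.cosh_eq, Real.cosh_eq, div_mul_eq_mul_div, add_mul, ← Real.exp_add, ← Real.exp_add]
    gcongr <;> linarith
  rw [NN, NN, ← mul_div_assoc (_ ^ δ), ← Real.rpow_add (by positivity), add_comm δ, ← mul_div_assoc (Real.exp 8),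
    div_mul_eq_mul_div,
    div_le_div_iff₀ c2 c1, add_sub_cancel_left]
  calc _ ≤ ((1 + τ ^ 2) * Real.exp (2 * |t|)) ^ (a + δ) * Real.exp (-t ^ 2) ^ 2 *
        (Real.cosh (π * ((τ + t) / 2)) * Real.exp (2 * |t|)) := by gcongr
    _ = Real.exp (2 * |t| * (a + δ) + (-t ^ 2 + -t ^ 2) + 2 * |t|) * (1 + τ ^ 2) ^ (a + δ) *
        Real.cosh (π * ((τ + t) / 2)) := by
      rw [Real.mul_rpow (by positivity) (by positivity), ← Real.exp_mul, Real.exp_add, Real.exp_add, Real.exp_add]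
      ring
    _ ≤ _ := by gcongr; nlinarith [sq_abs t, sq_nonneg (|t| - 2)]

lemma bnd {η d : ℝ} (d0 : 0 < d) (d1 : d < η) (h1 : η ≤ 1) : ∃ C : ℝ, 0 < C ∧ ∀ τ : ℝ,
    xi ((1 / 2 + η - d : ℝ) + τ * I) ≠ 0 ∧ ∀ z : ℂ, |z.re| = 1 / 2 + η → (‖xi z‖ * Real.exp (-(z.im - τ) ^ 2)) ^ 2 ≤
      C * (1 + τ ^ 2) ^ (d / 2) * ‖xi ((1 / 2 + η - d : ℝ) + τ * I)‖ ^ 2 := by
  obtain ⟨c', C, -, h⟩ := xi_two (e := η) (by linarith) h1
  obtain ⟨c, C', c0, g⟩ := xi_two (e := η - d) (by linarith) (by linarith)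
  refine ⟨(|C| + 1) * Real.exp 8 / c, by positivity, fun τ => ?_⟩
  have g := (g τ).1
  have n0 : ∀ a u, 0 < NN a u := fun a u => by have := Real.cosh_pos (π * (u / 2)); unfold NN; positivity
  rw [← add_sub_assoc] at g
  refine ⟨fun c => ?_, fun z hz => ?_⟩
  · rw [c, norm_zero] at g; nlinarith [mul_pos c0 (n0 (2 + (η - d) / 2) τ)]
  have e : ‖xi z‖ = ‖xi ((1 / 2 + η : ℝ) + z.im * I)‖ := by
    rcases abs_eq (by linarith) |>.1 hz with c | c
    · rw [← c, re_add_im]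
    · rw [← xi_neg, ← RCLike.norm_conj, ← xi_conj]; congr 2; apply Complex.ext <;> simp [c]
  have := NN_le (a := 2 + (η - d) / 2) (δ := d / 2) (by linarith) (by linarith) τ z.im
  rw [show 2 + (η - d) / 2 + d / 2 = 2 + η / 2 by ring] at this
  rw [e, mul_pow]
  calc _ ≤ (|C| + 1) * NN (2 + η / 2) z.im * Real.exp (-(z.im - τ) ^ 2) ^ 2 := by
        gcongr; exact (h _).2.trans (mul_le_mul_of_nonneg_right (by linarith [le_abs_self C]) (n0 _ _).le)
    _ ≤ (|C| + 1) * (Real.exp 8 * ((1 + τ ^ 2) ^ (d / 2) * NN (2 + (η - d) / 2) τ)) := by rw [mul_assoc]; gcongr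
    _ = (|C| + 1) * Real.exp 8 / c * (1 + τ ^ 2) ^ (d / 2) * (c * NN (2 + (η - d) / 2) τ) := by field_simp
    _ ≤ _ := by gcongr

end Pool.Agent.Lib.MP_31bf45_nt
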